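import Pool.Agent.Helper70.PP54.FINAL

set_option autoImplicit false

/-!
PP54 FINAL2: double counting, with the zeros of `Hx (-τ)` in the strip `T < Im < 2 T`. As FINAL, but first the zeros
of LIB within distance 1 of the two ends are dropped (CNT with `V0 = 3/4` and `Hf.good_top`).
-/

open Complex MeasureTheory Set Filter Topology

namespace Pool.Agent.Helper70.PP54

open Pool.Agent.Helper54.Pp Pool.Agent.Helper54.Xm Pool.Agent.Helper54.Hf Pool.Agent.Helper54.Nt Pool.Agent.Helper54.Nm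

/-- FINAL2: positive proportion, zeros in `T < Im < 2 T`. -/
def S_Final2 : Prop := ∃ C c T0 : ℝ, 1 ≤ C ∧ 0 < c ∧ 1000 ≤ T0 ∧ ∀ T τ : ℝ, T0 ≤ T →
  C ≤ τ * Real.log T ^ 2 → τ * Real.log T ≤ 1 / 100 →
  ∃ S : Finset ℂ, (∀ z ∈ S, Hx (-τ) z = 0 ∧ 0 < z.re ∧ T < z.im ∧ z.im < 2 * T) ∧
    c * (T / (τ * Real.log T)) ≤ (S.card : ℝ)

set_option maxHeartbeats 1000000 in
theorem pFINAL2 (hReg : S_Reg) (hMass : S_Mass) (hCnt : S_Cnt) (hLib : S_Lib) : S_Final2 := by
  classical
  obtain ⟨η, c, T1, hη, hη2, hc, hT1, hLib⟩ := hLib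
  obtain ⟨ε, Λ, T2, hε, hε1, hΛ, hT2, hReg⟩ := hReg (η / 2) (by positivity) (by linarith)
  obtain ⟨Cm, cm, C0, T3, hCm, hcm, hC0, hT3, hMass⟩ := hMass ε hε hε1
  obtain ⟨K, T4, hK, hT4, hCnt⟩ := hCnt
  obtain ⟨T5, -, hTop⟩ := good_top (ε := 1 / 6400) (by norm_num)
  -- the constant from the mass estimate
  obtain ⟨A, hA1, hA⟩ : ∃ A : ℝ, 1 ≤ A ∧ ∀ x : ℝ, A ≤ x → Cm * Real.exp (-(cm * x)) ≤ c / 4 := by
    refine ⟨max 1 (4 * Cm / (c * cm)), le_max_left _ _, fun x hx => ?_⟩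
    have h1 : 4 * Cm / (c * cm) ≤ x := le_trans (le_max_right _ _) hx
    have h2 : 4 * Cm ≤ x * (c * cm) := (div_le_iff₀ (by positivity)).1 h1
    have h3 : cm * x + 1 ≤ Real.exp (cm * x) := Real.add_one_le_exp _
    have h4 : 0 < Real.exp (cm * x) := Real.exp_pos _
    rw [Real.exp_neg, ← div_eq_mul_inv, div_le_iff₀ h4]
    nlinarith
  refine ⟨max (max Λ 8) (max (8 * C0) (8 * A)), 4 * c / (33 * K),
    max (max (max T1 T2) (max T3 T4)) (max T5 (6 * K / c)), ?_, by positivity, ?_, ?_⟩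
  · exact le_trans hΛ (le_trans (le_max_left _ _) (le_max_left _ _))
  · exact le_trans hT1 (le_trans (le_trans (le_max_left _ _) (le_max_left _ _)) (le_max_left _ _))
  intro T τ hT hC hτ1
  have hTa : max (max T1 T2) (max T3 T4) ≤ T := le_trans (le_max_left _ _) hT
  have hT1' : T1 ≤ T := le_trans (le_trans (le_max_left _ _) (le_max_left _ _)) hTa
  have hT2' : T2 ≤ T := le_trans (le_trans (le_max_right _ _) (le_max_left _ _)) hTa
  have hT3' : T3 ≤ T := le_trans (le_trans (le_max_left _ _) (le_max_right _ _)) hTa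
  have hT4' : T4 ≤ T := le_trans (le_trans (le_max_right _ _) (le_max_right _ _)) hTa
  have hT5' : T5 ≤ T := le_trans (le_trans (le_max_left _ _) (le_max_right _ _)) hT
  have hT6' : 6 * K / c ≤ T := le_trans (le_trans (le_max_right _ _) (le_max_right _ _)) hT
  have hT0 : 1000 ≤ T := le_trans hT1 hT1'
  set L := Real.log T with hLdef
  have hL : 0 < L := Real.log_pos (by linarith)
  have hCΛ : Λ ≤ τ * L ^ 2 := le_trans (le_trans (le_max_left _ _) (le_max_left _ _)) hC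
  have hC8 : 8 ≤ τ * L ^ 2 := le_trans (le_trans (le_max_right _ _) (le_max_left _ _)) hC
  have hCC0 : 8 * C0 ≤ τ * L ^ 2 := le_trans (le_trans (le_max_left _ _) (le_max_right _ _)) hC
  have hCA : 8 * A ≤ τ * L ^ 2 := le_trans (le_trans (le_max_right _ _) (le_max_right _ _)) hC
  have hτ : 0 < τ := by
    by_contra h
    have h1 : τ ≤ 0 := not_lt.1 h
    have h2 : τ * L ^ 2 ≤ 0 := mul_nonpos_of_nonpos_of_nonneg h1 (by positivity)
    linarith
  have hU : 0 < τ * L := by positivity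
  set V0 := τ * L / 8 with hV0
  have hV0p : 0 < V0 := by positivity
  have hV0L : V0 * L = τ * L ^ 2 / 8 := by rw [hV0]; ring
  have h8V : 8 * V0 = τ * L := by rw [hV0]; ring
  have hV38 : V0 ≤ 3 / 8 := by rw [hV0]; linarith
  have hL2 : 2 ≤ L := by
    rw [hLdef, Real.le_log_iff_exp_le (by linarith)]
    have h1 : Real.exp 2 = Real.exp 1 ^ 2 := by rw [← Real.exp_nat_mul]; norm_num
    have h2 := Real.exp_one_lt_d9
    have h3 := Real.exp_pos 1
    nlinarith
  obtain ⟨S0, hSm0, hS0⟩ := hLib T hT1'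
  -- the zeros near the ends
  have hKT : 3 / 2 * K * L ≤ c / 4 * (T * L) := by
    have h1 : 6 * K ≤ T * c := (div_le_iff₀ hc).1 hT6'
    nlinarith
  have hend1 : ∑ w ∈ S0.filter (fun w => w.im ≤ T + 1), (H370.mult fx w : ℝ) ≤ K * (3 / 4 * L) := by
    refine hCnt T (3 / 4) T (1 / 6400) hT4' (by rw [← hLdef]; linarith) le_rfl (by norm_num) le_rfl (by linarith)
      (by linarith) (hTop T (3 / 4) (120 * (3 / 4)) T hT5' le_rfl (by linarith) (by linarith) (by linarith)) _ ?_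
    intro w hw
    have h1 := Finset.mem_filter.1 hw
    have h2 := hS0 w h1.1
    refine ⟨h2.1, ?_⟩
    rw [abs_le]
    constructor <;> linarith [h1.2, h2.2.1]
  have hs1 := Finset.sum_filter_add_sum_filter_not S0 (fun w => w.im ≤ T + 1) (fun w => (H370.mult fx w : ℝ))
  set S1 := S0.filter (fun w => ¬ w.im ≤ T + 1) with hS1
  have hend2 : ∑ w ∈ S1.filter (fun w => 2 * T - 1 ≤ w.im), (H370.mult fx w : ℝ) ≤ K * (3 / 4 * L) := by
    refine hCnt T (3 / 4) (2 * T) (1 / 6400) hT4' (by rw [← hLdef]; linarith) le_rfl (by norm_num) le_rfl (by linarith)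
      (by linarith) (hTop T (3 / 4) (120 * (3 / 4)) (2 * T) hT5' le_rfl (by linarith) (by linarith) (by linarith)) _ ?_
    intro w hw
    have h1 := Finset.mem_filter.1 hw
    have h2 := hS0 w (Finset.mem_filter.1 h1.1).1
    refine ⟨h2.1, ?_⟩
    rw [abs_le]
    constructor <;> linarith [h1.2, h2.2.2.1]
  have hs2 := Finset.sum_filter_add_sum_filter_not S1 (fun w => 2 * T - 1 ≤ w.im) (fun w => (H370.mult fx w : ℝ))
  set S := S1.filter (fun w => ¬ 2 * T - 1 ≤ w.im) with hSdef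
  have hSm : 3 * c / 4 * (T * L) ≤ ∑ w ∈ S, (H370.mult fx w : ℝ) := by
    rw [← hLdef] at hSm0
    linarith
  have hSe : ∀ w ∈ S, T + 1 < w.im ∧ w.im < 2 * T - 1 := fun w hw =>
    ⟨not_le.1 (Finset.mem_filter.1 (Finset.mem_filter.1 hw).1).2, not_le.1 (Finset.mem_filter.1 hw).2⟩
  have hS : ∀ w ∈ S, fx w = 0 ∧ T < w.im ∧ w.im ≤ 2 * T ∧ (2 ≤ H370.mult fx w ∨
      ∃ v : ℂ, fx v = 0 ∧ v ≠ w ∧ |v.im - w.im| ≤ (1 - η) * (2 * Real.pi / L)) := fun w hw =>
    hS0 w (Finset.mem_filter.1 (Finset.mem_filter.1 hw).1).1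
  -- the bad zeros
  set P : ℂ → Prop := fun w => ∀ n : ℕ, |w.im - n * (8 * V0)| ≤ 4 * V0 → ¬ MG ε T V0 (n * (8 * V0)) with hP
  have hbad := hMass T V0 hT3' (by rw [hV0L]; linarith) hV38 (S.filter P)
    (fun w hw => ⟨(hS w (Finset.mem_filter.1 hw).1).1, (hS w (Finset.mem_filter.1 hw).1).2.1,
      (hS w (Finset.mem_filter.1 hw).1).2.2.1⟩)
    (fun w hw => (Finset.mem_filter.1 hw).2)
  have hbad2 : ∑ w ∈ S.filter P, (H370.mult fx w : ℝ) ≤ c / 4 * (T * L) := by
    refine le_trans hbad ?_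
    have h1 := hA (V0 * L) (by rw [hV0L]; linarith)
    have h2 : Cm * (T * L) * Real.exp (-(cm * (V0 * L))) = (Cm * Real.exp (-(cm * (V0 * L)))) * (T * L) := by ring
    rw [h2]
    exact mul_le_mul_of_nonneg_right h1 (by positivity)
  have hsplit := Finset.sum_filter_add_sum_filter_not S P (fun w => (H370.mult fx w : ℝ))
  set G := S.filter (fun w => ¬ P w) with hG
  have hGm : c / 2 * (T * L) ≤ ∑ w ∈ G, (H370.mult fx w : ℝ) := by linarith
  -- the centre of a good zero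
  have hcen : ∀ w ∈ G, ∃ n : ℕ, |w.im - n * (8 * V0)| ≤ 4 * V0 ∧ MG ε T V0 (n * (8 * V0)) := by
    intro w hw
    have h1 := (Finset.mem_filter.1 hw).2
    simp only [hP] at h1
    push Not at h1
    exact h1
  choose! n hn1 hn2 using hcen
  set N := G.image n with hN
  -- range of the centres
  have hrange : ∀ w ∈ G, 3 * T / 4 ≤ (n w : ℝ) * (8 * V0) ∧ (n w : ℝ) * (8 * V0) ≤ 5 * T / 2 := by
    intro w hw
    have h1 := hS w (Finset.mem_filter.1 hw).1
    have h2 := abs_le.1 (hn1 w hw)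
    constructor <;> linarith [h1.2.1, h1.2.2.1, h2.1, h2.2]
  -- mass of a centre
  have hcell : ∀ m ∈ N, ∑ w ∈ G.filter (fun w => n w = m), (H370.mult fx w : ℝ) ≤ K * (V0 * L) := by
    intro m hm
    obtain ⟨w0, hw0, rfl⟩ := Finset.mem_image.1 hm
    have hr := hrange w0 hw0
    have hg := hn2 w0 hw0 0 (by simpa using (by linarith : V0 ≤ 3 / 4))
    simp only [pow_zero, mul_one] at hg
    refine hCnt T V0 (n w0 * (8 * V0)) ε hT4' (by rw [← hLdef, hV0L]; linarith) (by linarith) hε hε1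
      (by linarith [hr.1]) (by linarith [hr.2]) hg _ ?_
    intro w hw
    have h1 := Finset.mem_filter.1 hw
    refine ⟨(hS w (Finset.mem_filter.1 h1.1).1).1, ?_⟩
    have h2 := hn1 w h1.1
    rw [h1.2] at h2
    linarith
  have hNc : c / 2 * (T * L) ≤ (N.card : ℝ) * (K * (V0 * L)) := by
    refine le_trans hGm ?_
    rw [← Finset.sum_fiberwise_of_maps_to (s := G) (t := N) (g := n) (fun w hw => Finset.mem_image_of_mem n hw)]
    refine le_trans (Finset.sum_le_sum hcell) ?_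
    rw [Finset.sum_const, nsmul_eq_mul]
  -- a nonreal zero for each centre
  have hzero : ∀ m ∈ N, ∃ z : ℂ, Hx (-τ) z = 0 ∧ 0 < z.re ∧ |z.im - (m : ℝ) * (8 * V0)| ≤ 8 * (τ * L) := by
    intro m hm
    obtain ⟨w0, hw0, rfl⟩ := Finset.mem_image.1 hm
    have hr := hrange w0 hw0
    have hs := hS w0 (Finset.mem_filter.1 hw0).1
    by_contra hno
    push Not at hno
    have hiso := hReg T τ (n w0 * (8 * V0)) hT2' hτ hCΛ hτ1 hr.1 hr.2 (hn2 w0 hw0) (by
      intro z hz hzi
      by_contra hre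
      obtain ⟨y, hy1, hy2, hy3⟩ := pos_zero hz hre
      have := hno y hy1 hy2
      rw [hy3] at this
      exact absurd hzi (not_le.2 this)) w0 hs.1 (by
        have := hn1 w0 hw0
        rw [hV0] at this ⊢
        linarith)
    obtain ⟨_, h2, h3⟩ := hiso
    rcases hs.2.2.2 with h | ⟨v, hv1, hv2, hv3⟩
    · exact h2 (deriv_of_mult fx_diff h)
    · have h4 := h3 v hv1 hv2
      have h5 : 0 < 2 * Real.pi / L := by positivity
      have h6 : (1 - η / 2) * (2 * Real.pi / L) ≤ (1 - η) * (2 * Real.pi / L) := le_trans h4 hv3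
      nlinarith
  choose! z hz1 hz2 hz3 using hzero
  refine ⟨N.image z, ?_, ?_⟩
  · intro y hy
    obtain ⟨m, hm, rfl⟩ := Finset.mem_image.1 hy
    obtain ⟨w0, hw0, hw0m⟩ := Finset.mem_image.1 hm
    have hr := abs_le.1 (hn1 w0 hw0)
    rw [hw0m] at hr
    have he := hSe w0 (Finset.mem_filter.1 hw0).1
    have h3 := abs_le.1 (hz3 m hm)
    refine ⟨hz1 m hm, hz2 m hm, ?_, ?_⟩
    · linarith [h3.1, h3.2, hr.1, hr.2, he.1, he.2]
    · linarith [h3.1, h3.2, hr.1, hr.2, he.1, he.2]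
  · have hfib : ∀ a ∈ N.image z, (N.filter (fun m => z m = a)).card ≤ 33 := by
      intro a ha
      obtain ⟨m0, hm0, rfl⟩ := Finset.mem_image.1 ha
      have hsub : N.filter (fun m => z m = z m0) ⊆ Finset.Icc (m0 - 16) (m0 + 16) := by
        intro m hm
        obtain ⟨hmN, hme⟩ := Finset.mem_filter.1 hm
        have h1 := hz3 m hmN
        have h2 := hz3 m0 hm0
        rw [hme] at h1
        have h3 : |((m : ℝ) - m0) * (8 * V0)| ≤ 16 * (τ * L) := by
          have : ((m : ℝ) - m0) * (8 * V0) = ((z m0).im - m0 * (8 * V0)) - ((z m0).im - m * (8 * V0)) := by ring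
          rw [this]
          refine le_trans (abs_sub _ _) ?_
          linarith
        rw [h8V, abs_mul, abs_of_pos hU] at h3
        have h4 : |(m : ℝ) - m0| ≤ 16 := le_of_mul_le_mul_right h3 hU
        have h5 := abs_le.1 h4
        have h6 : (m : ℝ) ≤ m0 + 16 := by linarith [h5.2]
        have h7 : (m0 : ℝ) ≤ m + 16 := by linarith [h5.1]
        have h6' : m ≤ m0 + 16 := by exact_mod_cast h6
        have h7' : m0 ≤ m + 16 := by exact_mod_cast h7
        exact Finset.mem_Icc.2 ⟨by omega, h6'⟩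
      refine le_trans (Finset.card_le_card hsub) ?_
      rw [Nat.card_Icc]
      omega
    have hcard := Finset.card_le_mul_card_image N 33 hfib
    have hcard' : (N.card : ℝ) ≤ 33 * ((N.image z).card : ℝ) := by exact_mod_cast hcard
    have hKV : 0 < K * (V0 * L) := by positivity
    have h1 : c / 2 * (T * L) ≤ 33 * ((N.image z).card : ℝ) * (K * (V0 * L)) :=
      le_trans hNc (mul_le_mul_of_nonneg_right hcard' hKV.le)
    have h2 : 4 * c / (33 * K) * (T / (τ * L)) = (c / 2 * (T * L)) / (33 * (K * (V0 * L))) := by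
      rw [hV0]
      field_simp
      ring
    rw [h2, div_le_iff₀ (by positivity)]
    linarith

end Pool.Agent.Helper70.PP54
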